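import Pool.Agent.H12.UCR.Asm
import Pool.Agent.H1.UCR.CES
import Pool.Agent.H1.UCR.NRD
import Pool.Agent.H2.UCR.NRT
import Pool.Agent.H24.UCR.MIX
import Pool.Agent.H40.UCR.EVP

/-!
MP_e822af_an: no rate of convergence is generic.
-/

open MeasureTheory Filter Topology Pool.UCR

theorem Pool.Agent.Results.MP_e822af_an.NoRate.result :
    ∀ p q : ℕ, 2 ≤ p → 2 ≤ q → ∀ ρ : ℕ → ℝ, Tendsto ρ atTop (𝓝 0) → ∀ Φ : ℕ → ℕ,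
      ∃ G : Set (PP p), IsGδ G ∧ Dense G ∧ ∀ μ ∈ G, ∀ k : ℕ, 1 ≤ k → ∀ M : ℕ, ∃ N0 : ℕ, M ≤ N0 ∧
        ∀ N : ℕ, N0 ≤ N → N ≤ Φ N0 → ρ N < ‖Av q k N (fc μ)‖ :=
  nrt_thm cpt_thm (nrd_thm ctf_thm nbh_all dns_all ces_thm evp_thm mix_thm)
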