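import Pool.Agent.H38.UCR.EQG
import Pool.Agent.H71.UCR.INV
import Pool.Agent.H93.UCR.POW
import Pool.Agent.H41.UCR.POC
import Pool.Agent.H76.UCR.WYG
import Pool.Agent.H97.UCR.RMU

/-!
MP_e822af_an: the set of the problem is the same for all sequences `r p ^ (i n) q ^ (m n)`.
-/

open Pool.UCR

theorem Pool.Agent.Results.MP_e822af_an.SequencesInClass.result :
    ∀ p q r m : ℕ, 2 ≤ p → 2 ≤ q → 1 ≤ r → 1 ≤ m → ∀ i : ℕ → ℕ, ∀ μ : PP p,
      EquiSeq (fun n => r * p ^ (i n) * q ^ (m * n)) μ.1 ↔ EquiSeq (fun n => q ^ n) μ.1 :=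
  eqg_thm inv_thm pow_thm poc_thm wyg_thm rmu_thm
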