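import Pool.Agent.H12.UCR.Asm2

/-!
MP_e822af_an: residuality of the `p`-invariant measures with equidistributed averages is equivalent to a uniformity
statement on the exponential sums of periodic points; if it fails, the averages of generic measures in some open set
diverge.
-/

open Pool.UCR

theorem Pool.Agent.Results.MP_e822af_an.UniformityCriterion.result :
    ∀ p q : ℕ, 2 ≤ p → 2 ≤ q →
      (Residual p q ↔ Crit p q) ∧ (MI p q → ¬ Crit p q → Diverge p q) :=
  ucr_main2
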